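import Pool.Agent.N400.K9.Top

/-! A checker for symmetric resolution refutations over the two-colourings of the edges of `K₉`. -/

set_option autoImplicit false

namespace Pool.Agent.N400.K9

open Pool.Agent.Helper770.VanKampen

/-- first ends of the 36 edges, packed in base 16 -/
def EA : ℕ := 0x766555444433333222222111111100000000
/-- second ends of the 36 edges, packed in base 16 -/
def EB : ℕ := 0x887876876587654876543876543287654321
/-- numbers of the edges, packed in base 64 -/
def ET : ℕ := 0x3f8e281d6543878ff85f7184cd1a287f79b5d230581f7bf69644b11d71b6bf5502836585d657f3c90944d24503ff20138d30b28923f00718510308103f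

def ea (k : ℕ) : ℕ := Nat.land (Nat.shiftRight EA (4 * k)) 15
def eb (k : ℕ) : ℕ := Nat.land (Nat.shiftRight EB (4 * k)) 15
def eix (a b : ℕ) : ℕ := Nat.land (Nat.shiftRight ET (6 * (9 * a + b))) 63
def pv (π x : ℕ) : ℕ := Nat.land (Nat.shiftRight π (4 * x)) 15
def tb (m k : ℕ) : Bool := Nat.beq (Nat.land (Nat.shiftRight m k) 1) 1

/-- `g n`, with `n` evaluated first -/
def frc (n : ℕ) (g : ℕ → Bool) : Bool :=
  match n with
  | 0 => g 0
  | k + 1 => g (k + 1)

theorem frc_eq (n : ℕ) (g : ℕ → Bool) : frc n g = g n := by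
  cases n <;> rfl

/-- all edges of the mask `m` are mapped into the mask `R` by `π` -/
def subA (R π : ℕ) : ℕ → ℕ → Bool
  | 0, m => Nat.beq m 0
  | _ + 1, 0 => true
  | f + 1, m + 1 => frc (Nat.log2 (m + 1)) fun k =>
      (bif tb R (eix (pv π (ea k)) (pv π (eb k))) then
        subA R π f (Nat.xor (m + 1) (Nat.shiftLeft 1 k)) else false)

/-- `σ` is inverse to `π` -/
def invA (π σ : ℕ) : ℕ → Bool
  | 0 => true
  | x + 1 => bif Nat.beq (pv σ (pv π x)) x then (bif Nat.blt (pv π x) 9 then invA π σ x else false)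
      else false

/-- binary trees of natural numbers -/
inductive Tr : Type
  | lf (n : ℕ) : Tr
  | nd (l r : Tr) : Tr

def Tr.get : Tr → ℕ → ℕ
  | Tr.lf n, _ => n
  | Tr.nd l r, k => bif tb k 0 then r.get (Nat.shiftRight k 1) else l.get (Nat.shiftRight k 1)

def fR (s : ℕ) : ℕ := Nat.land s 68719476735
def fB (s : ℕ) : ℕ := Nat.land (Nat.shiftRight s 36) 68719476735
def fE (s : ℕ) : ℕ := Nat.land (Nat.shiftRight s 72) 63
def fI (s : ℕ) : ℕ := Nat.land (Nat.shiftRight s 78) 8191
def fJ (s : ℕ) : ℕ := Nat.land (Nat.shiftRight s 91) 8191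
def fP (s : ℕ) : ℕ := Nat.land (Nat.shiftRight s 104) 68719476735
def fQ (s : ℕ) : ℕ := Nat.land (Nat.shiftRight s 140) 68719476735
def fP' (s : ℕ) : ℕ := Nat.land (Nat.shiftRight s 176) 68719476735
def fQ' (s : ℕ) : ℕ := Nat.land (Nat.shiftRight s 212) 68719476735

/-- the part `(r, b)` contains the image of `(r', b')`, colours exchanged if `sw` -/
def useA (r b : ℕ) (sw : Bool) (π σ : ℕ) (r' b' : ℕ) : Bool :=
  frc r fun r => frc b fun b => frc π fun π => frc σ fun σ =>
  bif invA π σ 9 then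
    (bif sw then (bif subA r π 36 b' then subA b π 36 r' else false)
      else (bif subA r π 36 r' then subA b π 36 b' else false))
  else false

/-- derived step -/
def stepA (T : Tr) (n s : ℕ) : Bool :=
  bif Nat.blt (fI s) n then (bif Nat.blt (fJ s) n then
    (bif Nat.blt (fE s) 36 then
      (bif (frc (T.get (fI s)) fun t =>
          useA (Nat.lor (fR s) (Nat.shiftLeft 1 (fE s))) (fB s) (tb s 248) (fP s) (fQ s)
          (fR t) (fB t)) then
        (frc (T.get (fJ s)) fun t =>
          useA (fR s) (Nat.lor (fB s) (Nat.shiftLeft 1 (fE s))) (tb s 249) (fP' s) (fQ' s)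
          (fR t) (fB t)) else false) else false) else false) else false

/-- interleaving, as a Boolean -/
def bet (k l : ℕ) : Bool :=
  xor (Nat.blt (ea k) (ea l) && Nat.blt (ea l) (eb k)) (Nat.blt (ea k) (eb l) && Nat.blt (eb l) (eb k))

/-- the edges `k` and `l` have no common end -/
def ind (k l : ℕ) : Bool :=
  !(Nat.beq (ea k) (ea l)) && (!(Nat.beq (ea k) (eb l)) && (!(Nat.beq (eb k) (ea l)) && !(Nat.beq (eb k) (eb l))))

def bt (k v : ℕ) : ℕ := Nat.shiftLeft 1 (9 * k + v)

/-- van Kampen certificate -/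
def vkA (K : ℕ) : ℕ → ℕ → ℕ → Bool → Bool
  | 0, _, acc, s => Nat.beq acc 0 && s
  | f + 1, Q, acc, s => bif Nat.beq Q 0 then Nat.beq acc 0 && s else
      (fun k l => Nat.blt k 36 && (Nat.blt l 36 && (tb K k && (tb K l && (ind k l &&
        vkA K f (Nat.shiftRight Q 12)
          (Nat.xor (Nat.xor (Nat.xor (Nat.xor acc (bt k (ea l))) (bt k (eb l))) (bt l (ea k)))
            (bt l (eb k))) (xor s (bet k l)))))))
      (Nat.land Q 63) (Nat.land (Nat.shiftRight Q 6) 63)

/-- base step -/
def baseA (s Q : ℕ) : Bool := Nat.beq (fB s) 0 && vkA (fR s) 400 Q 0 false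

end Pool.Agent.N400.K9
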