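import Mathlib

/-! A straight-line drawing of `K₉` on two planes with one crossing. -/

set_option autoImplicit false
set_option maxRecDepth 1000000

namespace Pool.Agent.N400.K9

open Set

/-- the abscissae -/
def px : Fin 2 → Fin 9 → ℤ
  | 0 => ![10, 13, 5, 8, 10, 0, 9, 6, 6]
  | 1 => ![13, 3, 13, 2, 10, 0, 4, 3, 1]

/-- the ordinates -/
def py : Fin 2 → Fin 9 → ℤ
  | 0 => ![9, 8, 11, 15, 7, 1, 10, 14, 8]
  | 1 => ![0, 6, 8, 12, 3, 0, 3, 9, 5]

/-- the plane of an edge -/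
def pl (u v : Fin 9) : Fin 2 :=
  if Nat.testBit 0xcb8dc849288da82701ec (9 * u.val + v.val) then 1 else 0

/-- orientation -/
def oz (i : Fin 2) (a b c : Fin 9) : ℤ :=
  (px i b - px i a) * (py i c - py i a) - (py i b - py i a) * (px i c - px i a)

/-- the points -/
def pt (i : Fin 2) (v : Fin 9) : ℂ := ⟨px i v, py i v⟩

/-- the segments -/
def sg (i : Fin 2) (u v : Fin 9) (t : ℝ) : ℂ :=
  ⟨(1 - t) * px i u + t * px i v, (1 - t) * py i u + t * py i v⟩

theorem pl_symm : ∀ u v : Fin 9, u ≠ v → pl u v = pl v u := by decide +kernel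

theorem pt_ne : ∀ (i : Fin 2) (u v : Fin 9), u ≠ v → px i u ≠ px i v ∨ py i u ≠ py i v := by
  decide +kernel

theorem gen : ∀ (i : Fin 2) (a b c : Fin 9), a ≠ b → a ≠ c → b ≠ c → oz i a b c ≠ 0 := by
  decide +kernel

theorem pt_inj (i : Fin 2) : Function.Injective (pt i) := by
  intro u v h
  by_contra hne
  have hx := congrArg Complex.re h
  have hy := congrArg Complex.im h
  simp only [pt] at hx hy
  rcases pt_ne i u v hne with h1 | h1
  · exact h1 (by exact_mod_cast hx)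
  · exact h1 (by exact_mod_cast hy)

theorem sg_cont (i : Fin 2) (u v : Fin 9) : Continuous (sg i u v) := by
  have : sg i u v = fun t : ℝ => (((1 - t) * px i u + t * px i v : ℝ) : ℂ) +
      (((1 - t) * py i u + t * py i v : ℝ) : ℂ) * Complex.I := by
    funext t; exact Complex.mk_eq_add_mul_I _ _
  rw [this]; fun_prop

theorem sg_zero (i : Fin 2) (u v : Fin 9) : sg i u v 0 = pt i u := by
  apply Complex.ext <;> simp [sg, pt]

theorem sg_one (i : Fin 2) (u v : Fin 9) : sg i u v 1 = pt i v := by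
  apply Complex.ext <;> simp [sg, pt]

theorem sg_symm (i : Fin 2) (u v : Fin 9) (t : ℝ) : sg i v u t = sg i u v (1 - t) := by
  apply Complex.ext <;> simp only [sg] <;> ring

theorem sg_inj (i : Fin 2) {u v : Fin 9} (h : u ≠ v) {s t : ℝ} (hst : sg i u v s = sg i u v t) :
    s = t := by
  have hx := congrArg Complex.re hst
  have hy := congrArg Complex.im hst
  simp only [sg] at hx hy
  rcases pt_ne i u v h with h1 | h1
  · have h2 : (px i u : ℝ) - px i v ≠ 0 := sub_ne_zero.mpr (by exact_mod_cast h1)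
    have h3 : (s - t) * ((px i u : ℝ) - px i v) = 0 := by linarith
    rcases mul_eq_zero.mp h3 with h4 | h4
    · linarith
    · exact absurd h4 h2
  · have h2 : (py i u : ℝ) - py i v ≠ 0 := sub_ne_zero.mpr (by exact_mod_cast h1)
    have h3 : (s - t) * ((py i u : ℝ) - py i v) = 0 := by linarith
    rcases mul_eq_zero.mp h3 with h4 | h4
    · linarith
    · exact absurd h4 h2

theorem oz_sg (i : Fin 2) {z w a b : Fin 9} {s t : ℝ} (h : sg i z w s = sg i a b t) :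
    (1 - t) * (oz i z w a : ℝ) + t * (oz i z w b : ℝ) = 0 := by
  have hx := congrArg Complex.re h
  have hy := congrArg Complex.im h
  simp only [sg] at hx hy
  simp only [oz]
  push_cast
  linear_combination (-((px i w : ℝ) - px i z)) * hy + ((py i w : ℝ) - py i z) * hx

theorem sg_avoid (i : Fin 2) {u v : Fin 9} (h : u ≠ v) {t : ℝ} (h0 : 0 < t) (h1 : t < 1)
    (w : Fin 9) : sg i u v t ≠ pt i w := by
  intro e
  by_cases hu : w = u
  · subst hu
    rw [← sg_zero i w v] at e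
    exact h0.ne' (sg_inj i h e)
  by_cases hv : w = v
  · subst hv
    rw [← sg_one i u w] at e
    exact h1.ne (sg_inj i h e)
  have e2 : sg i u v t = sg i w w 0 := by rw [sg_zero]; exact e
  have e3 := oz_sg i e2
  have e4 : (oz i u v w : ℝ) = 0 := by linarith
  exact gen i u v w h (fun e => hu e.symm) (fun e => hv e.symm) (by exact_mod_cast e4)

/-- sign condition -/
def crit (x y : ℤ) : Bool := decide (x * y < 0) || (decide (x = 0) && decide (y = 0))

theorem crit_of {x y : ℤ} {t : ℝ} (h0 : 0 < t) (h1 : t < 1)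
    (h : (1 - t) * (x : ℝ) + t * (y : ℝ) = 0) : crit x y = true := by
  unfold crit
  rw [Bool.or_eq_true, Bool.and_eq_true, decide_eq_true_eq, decide_eq_true_eq, decide_eq_true_eq]
  by_cases hx : x = 0
  · right
    refine ⟨hx, ?_⟩
    rw [hx] at h
    have : (y : ℝ) = 0 := by
      have h2 : t * (y : ℝ) = 0 := by simpa using h
      rcases mul_eq_zero.mp h2 with h3 | h3
      · linarith
      · exact h3
    exact_mod_cast this
  · left
    have hx2 : (0 : ℝ) < (x : ℝ) * x := by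
      have : (x : ℝ) ≠ 0 := by exact_mod_cast hx
      exact mul_self_pos.mpr this
    have h3 : t * ((x : ℝ) * y) < 0 := by
      have : t * ((x : ℝ) * y) = - ((1 - t) * (x * x)) := by linear_combination (x : ℝ) * h
      rw [this]
      have : 0 < (1 - t) * ((x : ℝ) * x) := mul_pos (by linarith) hx2
      linarith
    have h4 : (x : ℝ) * y < 0 := by
      by_contra hc
      have : 0 ≤ t * ((x : ℝ) * y) := mul_nonneg h0.le (not_lt.mp hc)
      linarith
    exact_mod_cast h4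

/-- the crossing quadruples -/
def FF : Finset (Fin 2 × Fin 9 × Fin 9 × Fin 9 × Fin 9) :=
  {(0, 1, 2, 4, 6), (0, 1, 2, 6, 4), (0, 2, 1, 4, 6), (0, 2, 1, 6, 4), (0, 4, 6, 1, 2),
    (0, 4, 6, 2, 1), (0, 6, 4, 1, 2), (0, 6, 4, 2, 1)}

theorem cross_mem' : ∀ (i : Fin 2) (a b c d : Fin 9), (!(decide (a ≠ b)) || (!(decide (pl a b = i)) ||
    (!(decide (c ≠ d)) || (!(decide (pl c d = i)) || (decide (a = c ∧ b = d) ||
    (decide (a = d ∧ b = c) || (!(crit (oz i a b c) (oz i a b d)) ||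
    (!(crit (oz i c d a) (oz i c d b)) || decide ((i, a, b, c, d) ∈ FF))))))))) = true := by
  decide +kernel

theorem cross_mem (i : Fin 2) (a b : Fin 9) (h1 : a ≠ b) (h2 : pl a b = i) (c d : Fin 9)
    (h3 : c ≠ d) (h4 : pl c d = i) (h5 : ¬ (a = c ∧ b = d)) (h6 : ¬ (a = d ∧ b = c))
    (h7 : crit (oz i a b c) (oz i a b d) = true) (h8 : crit (oz i c d a) (oz i c d b) = true) :
    (i, a, b, c, d) ∈ FF := by
  have h := cross_mem' i a b c d
  simpa [h1, h2, h3, h4, h5, h6, h7, h8] using h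

theorem FF_ne : ∀ q ∈ FF, oz q.1 q.2.1 q.2.2.1 q.2.2.2.1 - oz q.1 q.2.1 q.2.2.1 q.2.2.2.2 ≠ 0 := by
  decide +kernel

/-- the crossing point of a crossing quadruple -/
noncomputable def zf (q : Fin 2 × Fin 9 × Fin 9 × Fin 9 × Fin 9) : ℂ :=
  sg q.1 q.2.2.2.1 q.2.2.2.2 ((oz q.1 q.2.1 q.2.2.1 q.2.2.2.1 : ℝ) /
    ((oz q.1 q.2.1 q.2.2.1 q.2.2.2.1 - oz q.1 q.2.1 q.2.2.1 q.2.2.2.2 : ℤ) : ℝ))

theorem draw_sub (G : SimpleGraph (Fin 9)) :
    {x : Fin 2 × Fin 9 × Fin 9 × Fin 9 × Fin 9 × ℂ |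
              G.Adj x.2.1 x.2.2.1 ∧ G.Adj x.2.2.2.1 x.2.2.2.2.1 ∧
              pl x.2.1 x.2.2.1 = x.1 ∧ pl x.2.2.2.1 x.2.2.2.2.1 = x.1 ∧
              ¬ (x.2.1 = x.2.2.2.1 ∧ x.2.2.1 = x.2.2.2.2.1) ∧
              ¬ (x.2.1 = x.2.2.2.2.1 ∧ x.2.2.1 = x.2.2.2.1) ∧
              (∃ t : ℝ, 0 < t ∧ t < 1 ∧ sg x.1 x.2.1 x.2.2.1 t = x.2.2.2.2.2) ∧
              (∃ t : ℝ, 0 < t ∧ t < 1 ∧ sg x.1 x.2.2.2.1 x.2.2.2.2.1 t = x.2.2.2.2.2)} ⊆
      (fun q : Fin 2 × Fin 9 × Fin 9 × Fin 9 × Fin 9 =>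
        ((q.1, q.2.1, q.2.2.1, q.2.2.2.1, q.2.2.2.2, zf q) :
          Fin 2 × Fin 9 × Fin 9 × Fin 9 × Fin 9 × ℂ)) '' (FF : Set _) := by
  rintro ⟨i, a, b, c, d, z⟩ ⟨h1, h2, h3, h4, h5, h6, ⟨s, s0, s1, hs⟩, ⟨t, t0, t1, ht⟩⟩
  simp only at h1 h2 h3 h4 h5 h6 hs ht
  have e1 : sg i a b s = sg i c d t := hs.trans ht.symm
  have e2 := oz_sg i e1
  have e3 := oz_sg i e1.symm
  have hm : (i, a, b, c, d) ∈ FF := cross_mem i a b h1.ne h3 c d h2.ne h4 h5 h6
    (crit_of t0 t1 e2) (crit_of s0 s1 e3)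
  refine ⟨(i, a, b, c, d), hm, ?_⟩
  have hne : ((oz i a b c - oz i a b d : ℤ) : ℝ) ≠ 0 := by exact_mod_cast FF_ne _ hm
  have : zf (i, a, b, c, d) = z := by
    unfold zf
    simp only
    rw [← ht]
    congr 1
    rw [div_eq_iff hne]
    push_cast
    linarith
  simp only [this]

theorem FF_card : FF.card = 8 := by decide +kernel

end Pool.Agent.N400.K9
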