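import Pool.Agent.N400.K9.Run
import Pool.Agent.N400.K9.Draw

/-! From an optimal self-complementary drawing of `K₉` to two crossing-free colour classes. -/

set_option autoImplicit false

namespace Pool.Agent.N400.K9

open Set

section
variable (G : SimpleGraph (Fin 9)) (c : Fin 9 → Fin 9 → Fin 2)
  (γ : Fin 2 → Fin 9 → Fin 9 → ℝ → ℂ)

/-- the ordered crossings, as in the frozen statement -/
def XS : Set (Fin 2 × Fin 9 × Fin 9 × Fin 9 × Fin 9 × ℂ) :=
  {x : Fin 2 × Fin 9 × Fin 9 × Fin 9 × Fin 9 × ℂ |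
            G.Adj x.2.1 x.2.2.1 ∧ G.Adj x.2.2.2.1 x.2.2.2.2.1 ∧
            c x.2.1 x.2.2.1 = x.1 ∧ c x.2.2.2.1 x.2.2.2.2.1 = x.1 ∧
            ¬ (x.2.1 = x.2.2.2.1 ∧ x.2.2.1 = x.2.2.2.2.1) ∧
            ¬ (x.2.1 = x.2.2.2.2.1 ∧ x.2.2.1 = x.2.2.2.1) ∧
            (∃ t : ℝ, 0 < t ∧ t < 1 ∧ γ x.1 x.2.1 x.2.2.1 t = x.2.2.2.2.2) ∧
            (∃ t : ℝ, 0 < t ∧ t < 1 ∧ γ x.1 x.2.2.2.1 x.2.2.2.2.1 t = x.2.2.2.2.2)}

end

variable {G : SimpleGraph (Fin 9)} {c : Fin 9 → Fin 9 → Fin 2}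
  {γ : Fin 2 → Fin 9 → Fin 9 → ℝ → ℂ}

theorem XS_flip (hc : ∀ u v, G.Adj u v → c u v = c v u)
    (hγ : ∀ i : Fin 2, ∀ u v, G.Adj u v → c u v = i →
      ∀ t : ℝ, 0 ≤ t → t ≤ 1 → γ i v u t = γ i u v (1 - t))
    {i : Fin 2} {u v w z : Fin 9} {x : ℂ} (h : (i, u, v, w, z, x) ∈ XS G c γ) :
    (i, v, u, w, z, x) ∈ XS G c γ := by
  obtain ⟨h1, h2, h3, h4, h5, h6, ⟨s, s0, s1, hs⟩, h8⟩ := h
  simp only at h1 h2 h3 h4 h5 h6 hs h8
  refine ⟨h1.symm, h2, ?_, h4, fun e => h6 ⟨e.2, e.1⟩, fun e => h5 ⟨e.2, e.1⟩,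
    ⟨1 - s, by linarith, by linarith, ?_⟩, h8⟩
  · show c v u = i
    rw [← hc u v h1]; exact h3
  · show γ i v u (1 - s) = x
    rw [hγ i u v h1 h3 (1 - s) (by linarith) (by linarith)]
    simpa using hs

theorem XS_swap {i : Fin 2} {u v w z : Fin 9} {x : ℂ} (h : (i, u, v, w, z, x) ∈ XS G c γ) :
    (i, w, z, u, v, x) ∈ XS G c γ := by
  obtain ⟨h1, h2, h3, h4, h5, h6, h7, h8⟩ := h
  exact ⟨h2, h1, h4, h3, fun e => h5 ⟨e.1.symm, e.2.symm⟩, fun e => h6 ⟨e.2.symm, e.1.symm⟩, h8, h7⟩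

/-- at most eight ordered crossings: one of the planes has none -/
theorem exists_plane (hc : ∀ u v, G.Adj u v → c u v = c v u)
    (hγ : ∀ i : Fin 2, ∀ u v, G.Adj u v → c u v = i →
      ∀ t : ℝ, 0 ≤ t → t ≤ 1 → γ i v u t = γ i u v (1 - t))
    (hf : (XS G c γ).Finite) (h8 : (XS G c γ).ncard ≤ 8) :
    ∃ i : Fin 2, ∀ x ∈ XS G c γ, x.1 ≠ i := by
  classical
  by_contra hcon
  push Not at hcon
  obtain ⟨⟨i, u, v, w, z, x⟩, hx, hi⟩ := hcon 0
  obtain ⟨y, hy, hj⟩ := hcon 1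
  simp only at hi
  have a1 := hx
  have a2 := XS_flip hc hγ a1
  have a3 := XS_swap a1
  have a4 := XS_flip hc hγ a3
  have a5 := XS_swap a2
  have a6 := XS_flip hc hγ a5
  have a7 := XS_swap a4
  have a8 := XS_flip hc hγ a7
  obtain ⟨g1, g2, -, -, g5, g6, -, -⟩ := hx
  simp only at g1 g2 g5 g6
  have n1 := g1.ne
  have n2 := g2.ne
  let F : Finset (Fin 2 × Fin 9 × Fin 9 × Fin 9 × Fin 9 × ℂ) :=
    {y, (i, u, v, w, z, x), (i, v, u, w, z, x), (i, w, z, u, v, x), (i, z, w, u, v, x),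
      (i, w, z, v, u, x), (i, z, w, v, u, x), (i, u, v, z, w, x), (i, v, u, z, w, x)}
  have hF : (F : Set _) ⊆ XS G c γ := by
    intro q hq
    simp only [F, Finset.coe_insert, Finset.coe_singleton, mem_insert_iff, mem_singleton_iff] at hq
    rcases hq with rfl | rfl | rfl | rfl | rfl | rfl | rfl | rfl | rfl
    all_goals assumption
  have hy0 : ∀ (a b d e : Fin 9) (p : ℂ), y ≠ (i, a, b, d, e, p) := by
    intro a b d e p h
    rw [h] at hj
    simp only at hj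
    rw [hi] at hj
    exact absurd hj (by decide)
  have hcard : F.card = 9 := by
    have hu : u ≠ w ∨ v ≠ z := by
      by_contra h; push Not at h; exact g5 h
    have hu' : u ≠ z ∨ v ≠ w := by
      by_contra h; push Not at h; exact g6 h
    simp only [F]
    rw [Finset.card_insert_of_notMem, Finset.card_insert_of_notMem, Finset.card_insert_of_notMem,
      Finset.card_insert_of_notMem, Finset.card_insert_of_notMem, Finset.card_insert_of_notMem,
      Finset.card_insert_of_notMem, Finset.card_insert_of_notMem, Finset.card_singleton]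
    all_goals
      simp only [Finset.mem_insert, Finset.mem_singleton, Prod.mk.injEq, not_or, true_and, and_true]
      try (refine ⟨?_, ?_, ?_, ?_, ?_, ?_, ?_, ?_⟩ <;> exact hy0 _ _ _ _ _)
      try omega
  have h9 : F.card ≤ (XS G c γ).ncard := by
    rw [← Set.ncard_coe_finset]
    exact Set.ncard_le_ncard hF hf
  omega

/-- a plane without crossings -/
theorem tp_of_plane {p : Fin 2 → Fin 9 → ℂ} (hG : ∀ u v : Fin 9, u ≠ v → G.Adj u v)
    (hp : ∀ i : Fin 2, Function.Injective (p i))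
    (hγ : ∀ i : Fin 2, ∀ u v : Fin 9, G.Adj u v → c u v = i →
            ContinuousOn (γ i u v) (Set.Icc (0:ℝ) 1) ∧
            Set.InjOn (γ i u v) (Set.Icc (0:ℝ) 1) ∧
            γ i u v 0 = p i u ∧ γ i u v 1 = p i v ∧
            (∀ t : ℝ, 0 ≤ t → t ≤ 1 → γ i v u t = γ i u v (1 - t)) ∧
            ∀ t : ℝ, 0 < t → t < 1 → ∀ w : Fin 9, γ i u v t ≠ p i w)
    {i : Fin 2} (hX : ∀ x ∈ XS G c γ, x.1 ≠ i) : TP (fun u v => u ≠ v ∧ c u v = i) := by
  have hav : ∀ a b, a ≠ b → c a b = i → ∀ d, d ≠ a → d ≠ b → ∀ t : ℝ, 0 ≤ t → t ≤ 1 →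
      γ i a b t ≠ p i d := by
    intro a b hab hc d hda hdb t h0 h1
    obtain ⟨-, -, g0, g1, -, gv⟩ := hγ i a b (hG a b hab) hc
    rcases h0.eq_or_lt with rfl | h0
    · rw [g0]; exact fun e => hda (hp i e).symm
    rcases h1.eq_or_lt with rfl | h1
    · rw [g1]; exact fun e => hdb (hp i e).symm
    exact gv t h0 h1 d
  refine ⟨p i, fun a b t => γ i a b (projIcc 0 1 zero_le_one t), hp i, ?_, ?_⟩
  · rintro a b ⟨hab, hc⟩
    obtain ⟨gc, -, g0, g1, -, -⟩ := hγ i a b (hG a b hab) hc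
    refine ⟨?_, ?_, ?_, ?_⟩
    · have h1 : Continuous (fun t : Icc (0:ℝ) 1 => γ i a b t) := continuousOn_iff_continuous_domRestrict.mp gc
      exact h1.comp continuous_projIcc
    · simp [g0]
    · simp [g1]
    · intro d hda hdb t
      exact hav a b hab hc d hda hdb _ (projIcc 0 1 zero_le_one t).2.1
        (projIcc 0 1 zero_le_one t).2.2
  · rintro a b d e ⟨hab, hc⟩ ⟨hde, hc'⟩ n1 n2 n3 n4 s t heq
    simp only at heq
    set s' : ℝ := (projIcc (0:ℝ) 1 zero_le_one s : ℝ) with hs'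
    set t' : ℝ := (projIcc (0:ℝ) 1 zero_le_one t : ℝ) with ht'
    have s0 : 0 ≤ s' := (projIcc (0:ℝ) 1 zero_le_one s).2.1
    have s1 : s' ≤ 1 := (projIcc (0:ℝ) 1 zero_le_one s).2.2
    have t0 : 0 ≤ t' := (projIcc (0:ℝ) 1 zero_le_one t).2.1
    have t1 : t' ≤ 1 := (projIcc (0:ℝ) 1 zero_le_one t).2.2
    obtain ⟨-, -, g0, g1, -, -⟩ := hγ i a b (hG a b hab) hc
    obtain ⟨-, -, k0, k1, -, -⟩ := hγ i d e (hG d e hde) hc'
    rcases s0.eq_or_lt with hs | s0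
    · rw [← hs, g0] at heq
      exact hav d e hde hc' a n1 n2 t' t0 t1 heq.symm
    rcases s1.eq_or_lt with hs | s1
    · rw [hs, g1] at heq
      exact hav d e hde hc' b n3 n4 t' t0 t1 heq.symm
    rcases t0.eq_or_lt with ht | t0
    · rw [← ht, k0] at heq
      exact hav a b hab hc d n1.symm n3.symm s' s0.le s1.le heq
    rcases t1.eq_or_lt with ht | t1
    · rw [ht, k1] at heq
      exact hav a b hab hc e n2.symm n4.symm s' s0.le s1.le heq
    exact hX (i, a, b, d, e, γ i a b s') ⟨hG a b hab, hG d e hde, hc, hc', fun h => n1 h.1,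
      fun h => n2 h.1, ⟨s', s0, s1, rfl⟩, ⟨t', t0, t1, heq.symm⟩⟩ rfl

/-- the two colour classes of a self-complementary drawing with at most one crossing -/
theorem no_selfcompl {p : Fin 2 → Fin 9 → ℂ} (hG : ∀ u v : Fin 9, u ≠ v → G.Adj u v)
    (hc : ∀ u v, G.Adj u v → c u v = c v u)
    (hp : ∀ i : Fin 2, Function.Injective (p i))
    (hγ : ∀ i : Fin 2, ∀ u v : Fin 9, G.Adj u v → c u v = i →
            ContinuousOn (γ i u v) (Set.Icc (0:ℝ) 1) ∧
            Set.InjOn (γ i u v) (Set.Icc (0:ℝ) 1) ∧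
            γ i u v 0 = p i u ∧ γ i u v 1 = p i v ∧
            (∀ t : ℝ, 0 ≤ t → t ≤ 1 → γ i v u t = γ i u v (1 - t)) ∧
            ∀ t : ℝ, 0 < t → t < 1 → ∀ w : Fin 9, γ i u v t ≠ p i w)
    (hf : (XS G c γ).Finite) (h8 : (XS G c γ).ncard ≤ 8)
    (hiso : Nonempty (SimpleGraph.fromRel (fun u v => G.Adj u v ∧ c u v = 0) ≃g
          SimpleGraph.fromRel (fun u v => G.Adj u v ∧ c u v = 1))) : False := by
  obtain ⟨f⟩ := hiso
  have hadj : ∀ (i : Fin 2) (u v : Fin 9),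
      (SimpleGraph.fromRel (fun u v => G.Adj u v ∧ c u v = i)).Adj u v ↔ (u ≠ v ∧ c u v = i) := by
    intro i u v
    rw [SimpleGraph.fromRel_adj]
    constructor
    · rintro ⟨h1, h2 | h2⟩
      · exact ⟨h1, h2.2⟩
      · exact ⟨h1, by rw [hc u v (hG u v h1)]; exact h2.2⟩
    · rintro ⟨h1, h2⟩
      exact ⟨h1, Or.inl ⟨hG u v h1, h2⟩⟩
  have hboth : TP (fun u v => u ≠ v ∧ c u v = 0) ∧ TP (fun u v => u ≠ v ∧ c u v = 1) := by
    obtain ⟨i, hi⟩ := exists_plane hc (fun i u v h1 h2 => (hγ i u v h1 h2).2.2.2.2.1) hf h8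
    have ht := tp_of_plane hG hp hγ hi
    have hi2 : i = 0 ∨ i = 1 := by omega
    rcases hi2 with rfl | rfl
    · refine ⟨ht, (ht.comp f.symm f.symm.injective).mono ?_⟩
      intro u v huv
      rw [← hadj 0]
      rw [← hadj 1] at huv
      exact f.symm.map_rel_iff.mpr huv
    · refine ⟨(ht.comp f f.injective).mono ?_, ht⟩
      intro u v huv
      rw [← hadj 1]
      rw [← hadj 0] at huv
      exact f.map_rel_iff.mpr huv
  refine no_biplanar (fun u v => decide (c u v = 0)) ?_ ?_ ?_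
  · intro x y
    by_cases h : x = y
    · rw [h]
    · rw [hc x y (hG x y h)]
  · exact hboth.1.mono (fun x y h => ⟨h.1, by simpa using h.2⟩)
  · refine hboth.2.mono (fun x y h => ⟨h.1, ?_⟩)
    have h2 : c x y ≠ 0 := by simpa using h.2
    omega

end Pool.Agent.N400.K9
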