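import Pool.Agent.N400.K9.Snd
import Pool.Agent.N400.K9.Data

/-! The table passes the check. -/

set_option autoImplicit false
set_option maxRecDepth 100000

namespace Pool.Agent.N400.K9

open Pool.Agent.N400.K9.Data

theorem r0 : rngA T B 0 64 = true := by decide +kernel
theorem r1 : rngA T B 64 64 = true := by decide +kernel
theorem r2 : rngA T B 128 64 = true := by decide +kernel
theorem r3 : rngA T B 192 64 = true := by decide +kernel
theorem r4 : rngA T B 256 64 = true := by decide +kernel
theorem r5 : rngA T B 320 64 = true := by decide +kernel
theorem r6 : rngA T B 384 64 = true := by decide +kernel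
theorem r7 : rngA T B 448 64 = true := by decide +kernel
theorem r8 : rngA T B 512 64 = true := by decide +kernel
theorem r9 : rngA T B 576 64 = true := by decide +kernel
theorem r10 : rngA T B 640 64 = true := by decide +kernel
theorem r11 : rngA T B 704 64 = true := by decide +kernel
theorem r12 : rngA T B 768 64 = true := by decide +kernel
theorem r13 : rngA T B 832 64 = true := by decide +kernel
theorem r14 : rngA T B 896 64 = true := by decide +kernel
theorem r15 : rngA T B 960 64 = true := by decide +kernel
theorem r16 : rngA T B 1024 64 = true := by decide +kernel
theorem r17 : rngA T B 1088 64 = true := by decide +kernel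
theorem r18 : rngA T B 1152 64 = true := by decide +kernel
theorem r19 : rngA T B 1216 64 = true := by decide +kernel
theorem r20 : rngA T B 1280 64 = true := by decide +kernel
theorem r21 : rngA T B 1344 64 = true := by decide +kernel
theorem r22 : rngA T B 1408 64 = true := by decide +kernel
theorem r23 : rngA T B 1472 64 = true := by decide +kernel
theorem r24 : rngA T B 1536 64 = true := by decide +kernel
theorem r25 : rngA T B 1600 64 = true := by decide +kernel
theorem r26 : rngA T B 1664 64 = true := by decide +kernel
theorem r27 : rngA T B 1728 64 = true := by decide +kernel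
theorem r28 : rngA T B 1792 64 = true := by decide +kernel
theorem r29 : rngA T B 1856 64 = true := by decide +kernel
theorem r30 : rngA T B 1920 64 = true := by decide +kernel
theorem r31 : rngA T B 1984 64 = true := by decide +kernel
theorem r32 : rngA T B 2048 64 = true := by decide +kernel
theorem r33 : rngA T B 2112 64 = true := by decide +kernel
theorem r34 : rngA T B 2176 64 = true := by decide +kernel
theorem r35 : rngA T B 2240 64 = true := by decide +kernel
theorem r36 : rngA T B 2304 64 = true := by decide +kernel
theorem r37 : rngA T B 2368 64 = true := by decide +kernel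
theorem r38 : rngA T B 2432 64 = true := by decide +kernel
theorem r39 : rngA T B 2496 64 = true := by decide +kernel
theorem r40 : rngA T B 2560 64 = true := by decide +kernel
theorem r41 : rngA T B 2624 64 = true := by decide +kernel
theorem r42 : rngA T B 2688 64 = true := by decide +kernel
theorem r43 : rngA T B 2752 64 = true := by decide +kernel
theorem r44 : rngA T B 2816 64 = true := by decide +kernel
theorem r45 : rngA T B 2880 64 = true := by decide +kernel
theorem r46 : rngA T B 2944 64 = true := by decide +kernel
theorem r47 : rngA T B 3008 64 = true := by decide +kernel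
theorem r48 : rngA T B 3072 64 = true := by decide +kernel
theorem r49 : rngA T B 3136 64 = true := by decide +kernel
theorem r50 : rngA T B 3200 64 = true := by decide +kernel
theorem r51 : rngA T B 3264 64 = true := by decide +kernel
theorem r52 : rngA T B 3328 64 = true := by decide +kernel
theorem r53 : rngA T B 3392 64 = true := by decide +kernel
theorem r54 : rngA T B 3456 64 = true := by decide +kernel
theorem r55 : rngA T B 3520 64 = true := by decide +kernel
theorem r56 : rngA T B 3584 64 = true := by decide +kernel
theorem r57 : rngA T B 3648 64 = true := by decide +kernel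
theorem r58 : rngA T B 3712 64 = true := by decide +kernel
theorem r59 : rngA T B 3776 64 = true := by decide +kernel
theorem r60 : rngA T B 3840 64 = true := by decide +kernel
theorem r61 : rngA T B 3904 15 = true := by decide +kernel

theorem all : ∀ n, n < 3919 → okA T B n = true := by
  intro n hn
  by_cases h0 : n < 64
  · exact rngA_sound r0 n (by omega) (by omega)
  by_cases h1 : n < 128
  · exact rngA_sound r1 n (by omega) (by omega)
  by_cases h2 : n < 192
  · exact rngA_sound r2 n (by omega) (by omega)
  by_cases h3 : n < 256
  · exact rngA_sound r3 n (by omega) (by omega)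
  by_cases h4 : n < 320
  · exact rngA_sound r4 n (by omega) (by omega)
  by_cases h5 : n < 384
  · exact rngA_sound r5 n (by omega) (by omega)
  by_cases h6 : n < 448
  · exact rngA_sound r6 n (by omega) (by omega)
  by_cases h7 : n < 512
  · exact rngA_sound r7 n (by omega) (by omega)
  by_cases h8 : n < 576
  · exact rngA_sound r8 n (by omega) (by omega)
  by_cases h9 : n < 640
  · exact rngA_sound r9 n (by omega) (by omega)
  by_cases h10 : n < 704
  · exact rngA_sound r10 n (by omega) (by omega)
  by_cases h11 : n < 768
  · exact rngA_sound r11 n (by omega) (by omega)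
  by_cases h12 : n < 832
  · exact rngA_sound r12 n (by omega) (by omega)
  by_cases h13 : n < 896
  · exact rngA_sound r13 n (by omega) (by omega)
  by_cases h14 : n < 960
  · exact rngA_sound r14 n (by omega) (by omega)
  by_cases h15 : n < 1024
  · exact rngA_sound r15 n (by omega) (by omega)
  by_cases h16 : n < 1088
  · exact rngA_sound r16 n (by omega) (by omega)
  by_cases h17 : n < 1152
  · exact rngA_sound r17 n (by omega) (by omega)
  by_cases h18 : n < 1216
  · exact rngA_sound r18 n (by omega) (by omega)
  by_cases h19 : n < 1280
  · exact rngA_sound r19 n (by omega) (by omega)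
  by_cases h20 : n < 1344
  · exact rngA_sound r20 n (by omega) (by omega)
  by_cases h21 : n < 1408
  · exact rngA_sound r21 n (by omega) (by omega)
  by_cases h22 : n < 1472
  · exact rngA_sound r22 n (by omega) (by omega)
  by_cases h23 : n < 1536
  · exact rngA_sound r23 n (by omega) (by omega)
  by_cases h24 : n < 1600
  · exact rngA_sound r24 n (by omega) (by omega)
  by_cases h25 : n < 1664
  · exact rngA_sound r25 n (by omega) (by omega)
  by_cases h26 : n < 1728
  · exact rngA_sound r26 n (by omega) (by omega)
  by_cases h27 : n < 1792
  · exact rngA_sound r27 n (by omega) (by omega)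
  by_cases h28 : n < 1856
  · exact rngA_sound r28 n (by omega) (by omega)
  by_cases h29 : n < 1920
  · exact rngA_sound r29 n (by omega) (by omega)
  by_cases h30 : n < 1984
  · exact rngA_sound r30 n (by omega) (by omega)
  by_cases h31 : n < 2048
  · exact rngA_sound r31 n (by omega) (by omega)
  by_cases h32 : n < 2112
  · exact rngA_sound r32 n (by omega) (by omega)
  by_cases h33 : n < 2176
  · exact rngA_sound r33 n (by omega) (by omega)
  by_cases h34 : n < 2240
  · exact rngA_sound r34 n (by omega) (by omega)
  by_cases h35 : n < 2304
  · exact rngA_sound r35 n (by omega) (by omega)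
  by_cases h36 : n < 2368
  · exact rngA_sound r36 n (by omega) (by omega)
  by_cases h37 : n < 2432
  · exact rngA_sound r37 n (by omega) (by omega)
  by_cases h38 : n < 2496
  · exact rngA_sound r38 n (by omega) (by omega)
  by_cases h39 : n < 2560
  · exact rngA_sound r39 n (by omega) (by omega)
  by_cases h40 : n < 2624
  · exact rngA_sound r40 n (by omega) (by omega)
  by_cases h41 : n < 2688
  · exact rngA_sound r41 n (by omega) (by omega)
  by_cases h42 : n < 2752
  · exact rngA_sound r42 n (by omega) (by omega)
  by_cases h43 : n < 2816
  · exact rngA_sound r43 n (by omega) (by omega)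
  by_cases h44 : n < 2880
  · exact rngA_sound r44 n (by omega) (by omega)
  by_cases h45 : n < 2944
  · exact rngA_sound r45 n (by omega) (by omega)
  by_cases h46 : n < 3008
  · exact rngA_sound r46 n (by omega) (by omega)
  by_cases h47 : n < 3072
  · exact rngA_sound r47 n (by omega) (by omega)
  by_cases h48 : n < 3136
  · exact rngA_sound r48 n (by omega) (by omega)
  by_cases h49 : n < 3200
  · exact rngA_sound r49 n (by omega) (by omega)
  by_cases h50 : n < 3264
  · exact rngA_sound r50 n (by omega) (by omega)
  by_cases h51 : n < 3328
  · exact rngA_sound r51 n (by omega) (by omega)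
  by_cases h52 : n < 3392
  · exact rngA_sound r52 n (by omega) (by omega)
  by_cases h53 : n < 3456
  · exact rngA_sound r53 n (by omega) (by omega)
  by_cases h54 : n < 3520
  · exact rngA_sound r54 n (by omega) (by omega)
  by_cases h55 : n < 3584
  · exact rngA_sound r55 n (by omega) (by omega)
  by_cases h56 : n < 3648
  · exact rngA_sound r56 n (by omega) (by omega)
  by_cases h57 : n < 3712
  · exact rngA_sound r57 n (by omega) (by omega)
  by_cases h58 : n < 3776
  · exact rngA_sound r58 n (by omega) (by omega)
  by_cases h59 : n < 3840
  · exact rngA_sound r59 n (by omega) (by omega)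
  by_cases h60 : n < 3904
  · exact rngA_sound r60 n (by omega) (by omega)
  by_cases h61 : n < 3919
  · exact rngA_sound r61 n (by omega) (by omega)
  omega

theorem root : fR (T.get 3918) = 0 ∧ fB (T.get 3918) = 0 := by decide +kernel

/-- **`K₉` is not biplanar.** -/
theorem no_biplanar (C : Fin 9 → Fin 9 → Bool) (hC : ∀ x y, C x y = C y x)
    (h1 : TP (fun x y => x ≠ y ∧ C x y = true)) (h2 : TP (fun x y => x ≠ y ∧ C x y = false)) :
    False := by
  have h := okA_sound all 3918 (by norm_num)
  rw [root.1, root.2] at h
  exact h C hC (fun k _ hk => by simp at hk) (fun k _ hk => by simp at hk) h1 h2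

end Pool.Agent.N400.K9
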