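import Pool.Agent.N400.K9.Chk

/-! Soundness of the checker. -/

set_option autoImplicit false

namespace Pool.Agent.N400.K9

open Pool.Agent.Helper770.VanKampen

/-- a number as a vertex -/
def vt (n : ℕ) : Fin 9 := Fin.ofNat 9 n

/-- the colour of the edge number `k` -/
def col (C : Fin 9 → Fin 9 → Bool) (k : ℕ) : Bool := C (vt (ea k)) (vt (eb k))

/-- no two-colouring with plane colour classes extends the part `(r, b)` -/
def Bad (r b : ℕ) : Prop := ∀ C : Fin 9 → Fin 9 → Bool, (∀ x y, C x y = C y x) →
  (∀ k, k < 36 → r.testBit k = true → col C k = true) →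
  (∀ k, k < 36 → b.testBit k = true → col C k = false) →
  TP (fun x y => x ≠ y ∧ C x y = true) → TP (fun x y => x ≠ y ∧ C x y = false) → False

theorem beq_false {x y : ℕ} (h : x ≠ y) : Nat.beq x y = false := by
  cases hh : Nat.beq x y with
  | false => rfl
  | true => exact absurd (Nat.eq_of_beq_eq_true hh) h

theorem tb_eq (m k : ℕ) : tb m k = m.testBit k := by
  unfold tb
  rw [Nat.testBit_eq_decide_div_mod_eq]
  have h : Nat.land (Nat.shiftRight m k) 1 = m / 2 ^ k % 2 := by
    have h1 : Nat.land (Nat.shiftRight m k) 1 = (m >>> k) &&& 1 := rfl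
    rw [h1, Nat.and_one_is_mod, Nat.shiftRight_eq_div_pow]
  rw [h]
  rcases Nat.mod_two_eq_zero_or_one (m / 2 ^ k) with h2 | h2 <;> rw [h2] <;> rfl

theorem ends_lt : ∀ k : Fin 36, ea k < eb k ∧ eb k < 9 := by decide +kernel

theorem ea_lt {k : ℕ} (h : k < 36) : ea k < eb k := (ends_lt ⟨k, h⟩).1
theorem eb_lt {k : ℕ} (h : k < 36) : eb k < 9 := (ends_lt ⟨k, h⟩).2

theorem eix_fin : ∀ x y : Fin 9, x ≠ y → eix x y < 36 ∧
    ((ea (eix x y) = x ∧ eb (eix x y) = y) ∨ (ea (eix x y) = y ∧ eb (eix x y) = x)) := by
  decide +kernel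

theorem eix_spec {x y : ℕ} (hx : x < 9) (hy : y < 9) (h : x ≠ y) : eix x y < 36 ∧
    ((ea (eix x y) = x ∧ eb (eix x y) = y) ∨ (ea (eix x y) = y ∧ eb (eix x y) = x)) :=
  eix_fin ⟨x, hx⟩ ⟨y, hy⟩ (by simpa using h)

theorem vt_val {n : ℕ} (h : n < 9) : (vt n).val = n := by
  simp [vt, Fin.ofNat, Nat.mod_eq_of_lt h]

theorem subA_sound (R π : ℕ) : ∀ f m, subA R π f m = true → ∀ k, m.testBit k = true →
    R.testBit (eix (pv π (ea k)) (pv π (eb k))) = true := by
  intro f
  induction f with
  | zero =>
    intro m h k hk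
    have : m = 0 := by simpa [subA] using h
    subst this
    simp at hk
  | succ f ih =>
    intro m h k hk
    cases m with
    | zero => simp at hk
    | succ m' =>
      simp only [subA, frc_eq] at h
      generalize m' + 1 = m at h hk
      cases ht : tb R (eix (pv π (ea (Nat.log2 m))) (pv π (eb (Nat.log2 m)))) with
      | false => rw [ht] at h; simp at h
      | true =>
        rw [ht] at h
        simp only [cond_true] at h
        by_cases hk0 : k = Nat.log2 m
        · rw [hk0, ← tb_eq]; exact ht
        · apply ih _ h k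
          have h1 : Nat.xor m (Nat.shiftLeft 1 (Nat.log2 m)) = m ^^^ (1 <<< Nat.log2 m) := rfl
          rw [h1, Nat.testBit_xor, hk, Nat.one_shiftLeft, Nat.testBit_two_pow]
          have : ¬ Nat.log2 m = k := fun e => hk0 e.symm
          simp [this]

theorem invA_sound (π σ : ℕ) : ∀ n, invA π σ n = true → ∀ x, x < n →
    pv σ (pv π x) = x ∧ pv π x < 9 := by
  intro n
  induction n with
  | zero => intro _ x hx; omega
  | succ n ih =>
    intro h x hx
    simp only [invA] at h
    cases h1 : Nat.beq (pv σ (pv π n)) n with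
    | false => rw [h1] at h; simp at h
    | true =>
      rw [h1] at h; simp only [cond_true] at h
      cases h2 : Nat.blt (pv π n) 9 with
      | false => rw [h2] at h; simp at h
      | true =>
        rw [h2] at h; simp only [cond_true] at h
        by_cases hxn : x = n
        · subst hxn
          exact ⟨Nat.eq_of_beq_eq_true h1, by simpa [Nat.blt_eq] using h2⟩
        · exact ih h x (by omega)

/-- the map of the vertices given by `π` -/
def fm (π : ℕ) (x : Fin 9) : Fin 9 := vt (pv π x.val)

theorem fm_inj {π σ : ℕ} (h : invA π σ 9 = true) : Function.Injective (fm π) := by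
  intro x y hxy
  have hx := invA_sound π σ 9 h x.val x.isLt
  have hy := invA_sound π σ 9 h y.val y.isLt
  have h1 : (fm π x).val = (fm π y).val := by rw [hxy]
  unfold fm at h1
  rw [vt_val hx.2, vt_val hy.2] at h1
  apply Fin.ext
  rw [← hx.1, ← hy.1, h1]

theorem col_fm {π σ : ℕ} (h : invA π σ 9 = true) {C : Fin 9 → Fin 9 → Bool}
    (hC : ∀ x y, C x y = C y x) {k : ℕ} (hk : k < 36) :
    eix (pv π (ea k)) (pv π (eb k)) < 36 ∧
      C (fm π (vt (ea k))) (fm π (vt (eb k))) = col C (eix (pv π (ea k)) (pv π (eb k))) := by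
  have h1 := ea_lt hk
  have h2 := eb_lt hk
  have hx := invA_sound π σ 9 h (ea k) (by omega)
  have hy := invA_sound π σ 9 h (eb k) (by omega)
  have hne : pv π (ea k) ≠ pv π (eb k) := by
    intro e
    have := hx.1
    rw [e, hy.1] at this
    omega
  obtain ⟨h3, h4⟩ := eix_spec hx.2 hy.2 hne
  refine ⟨h3, ?_⟩
  unfold fm col
  rw [vt_val (show ea k < 9 by omega), vt_val h2]
  rcases h4 with ⟨h5, h6⟩ | ⟨h5, h6⟩
  · rw [h5, h6]
  · rw [h5, h6]; exact hC _ _

theorem useA_sound {r b π σ r' b' : ℕ} {sw : Bool} (hb : Bad r' b')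
    (h : useA r b sw π σ r' b' = true) : Bad r b := by
  unfold useA at h
  simp only [frc_eq] at h
  cases hi : invA π σ 9 with
  | false => rw [hi] at h; simp at h
  | true =>
    rw [hi] at h; simp only [cond_true] at h
    intro C hC hr hbl hT hF
    cases sw with
    | false =>
      simp only [cond_false] at h
      cases h1 : subA r π 36 r' with
      | false => rw [h1] at h; simp at h
      | true =>
        rw [h1] at h; simp only [cond_true] at h
        refine hb (fun x y => C (fm π x) (fm π y)) (fun x y => hC _ _) ?_ ?_ ?_ ?_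
        · intro k hk hk'
          obtain ⟨h3, h4⟩ := col_fm hi hC hk
          show C (fm π (vt (ea k))) (fm π (vt (eb k))) = true
          rw [h4]
          exact hr _ h3 (subA_sound r π 36 r' h1 k hk')
        · intro k hk hk'
          obtain ⟨h3, h4⟩ := col_fm hi hC hk
          show C (fm π (vt (ea k))) (fm π (vt (eb k))) = false
          rw [h4]
          exact hbl _ h3 (subA_sound b π 36 b' h k hk')
        · exact (hT.comp (fm π) (fm_inj hi)).mono (fun x y hxy =>
            ⟨fun e => hxy.1 (fm_inj hi e), hxy.2⟩)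
        · exact (hF.comp (fm π) (fm_inj hi)).mono (fun x y hxy =>
            ⟨fun e => hxy.1 (fm_inj hi e), hxy.2⟩)
    | true =>
      simp only [cond_true] at h
      cases h1 : subA r π 36 b' with
      | false => rw [h1] at h; simp at h
      | true =>
        rw [h1] at h; simp only [cond_true] at h
        refine hb (fun x y => !(C (fm π x) (fm π y))) (fun x y => by rw [hC]) ?_ ?_ ?_ ?_
        · intro k hk hk'
          obtain ⟨h3, h4⟩ := col_fm hi hC hk
          show (!(C (fm π (vt (ea k))) (fm π (vt (eb k))))) = true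
          rw [h4, hbl _ h3 (subA_sound b π 36 r' h k hk')]
          rfl
        · intro k hk hk'
          obtain ⟨h3, h4⟩ := col_fm hi hC hk
          show (!(C (fm π (vt (ea k))) (fm π (vt (eb k))))) = false
          rw [h4, hr _ h3 (subA_sound r π 36 b' h1 k hk')]
          rfl
        · refine (hF.comp (fm π) (fm_inj hi)).mono (fun x y hxy =>
            ⟨fun e => hxy.1 (fm_inj hi e), ?_⟩)
          simpa using hxy.2
        · refine (hT.comp (fm π) (fm_inj hi)).mono (fun x y hxy =>
            ⟨fun e => hxy.1 (fm_inj hi e), ?_⟩)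
          simpa using hxy.2

theorem testBit_add {m e k : ℕ} (h : (Nat.lor m (Nat.shiftLeft 1 e)).testBit k = true) :
    m.testBit k = true ∨ e = k := by
  have h1 : Nat.lor m (Nat.shiftLeft 1 e) = m ||| (1 <<< e) := rfl
  rw [h1, Nat.testBit_or, Nat.one_shiftLeft, Nat.testBit_two_pow] at h
  simpa using h

theorem stepA_sound {T : Tr} {n s : ℕ} (h : stepA T n s = true)
    (hb : ∀ i, i < n → Bad (fR (T.get i)) (fB (T.get i))) : Bad (fR s) (fB s) := by
  unfold stepA at h
  simp only [frc_eq] at h
  cases h1 : Nat.blt (fI s) n with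
  | false => rw [h1] at h; simp at h
  | true =>
    rw [h1] at h; simp only [cond_true] at h
    cases h2 : Nat.blt (fJ s) n with
    | false => rw [h2] at h; simp at h
    | true =>
      rw [h2] at h; simp only [cond_true] at h
      cases h3 : Nat.blt (fE s) 36 with
      | false => rw [h3] at h; simp at h
      | true =>
        rw [h3] at h; simp only [cond_true] at h
        cases h4 : useA (Nat.lor (fR s) (Nat.shiftLeft 1 (fE s))) (fB s) (tb s 248) (fP s) (fQ s)
          (fR (T.get (fI s))) (fB (T.get (fI s))) with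
        | false => rw [h4] at h; simp at h
        | true =>
          rw [h4] at h; simp only [cond_true] at h
          have hA := useA_sound (hb (fI s) (by simpa [Nat.blt_eq] using h1)) h4
          have hB := useA_sound (hb (fJ s) (by simpa [Nat.blt_eq] using h2)) h
          intro C hC hr hbl hT hF
          cases he : col C (fE s) with
          | true =>
            refine hA C hC ?_ hbl hT hF
            intro k hk hk'
            rcases testBit_add hk' with h5 | h5
            · exact hr k hk h5
            · rw [← h5]; exact he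
          | false =>
            refine hB C hC hr ?_ hT hF
            intro k hk hk'
            rcases testBit_add hk' with h5 | h5
            · exact hbl k hk h5
            · rw [← h5]; exact he

/-! ### the van Kampen certificates -/

/-- the value of a mask of labels -/
def val (M : ℕ → ZMod 2) (acc : ℕ) : ZMod 2 :=
  ∑ i ∈ Finset.range 324, if acc.testBit i then M i else 0

theorem val_xor (M : ℕ → ZMod 2) (x y : ℕ) : val M (Nat.xor x y) = val M x + val M y := by
  unfold val
  rw [← Finset.sum_add_distrib]
  refine Finset.sum_congr rfl (fun i _ => ?_)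
  have h1 : Nat.xor x y = x ^^^ y := rfl
  rw [h1, Nat.testBit_xor]
  cases x.testBit i <;> cases y.testBit i <;> simp
  have : M i + M i = 2 * M i := by ring
  rw [this, show (2 : ZMod 2) = 0 from rfl, zero_mul]

theorem val_bt (M : ℕ → ZMod 2) {k v : ℕ} (hk : k < 36) (hv : v < 9) :
    val M (bt k v) = M (9 * k + v) := by
  unfold val bt
  have h1 : Nat.shiftLeft 1 (9 * k + v) = 1 <<< (9 * k + v) := rfl
  rw [h1, Nat.one_shiftLeft]
  have h2 : ∀ i ∈ Finset.range 324, (if (2 ^ (9 * k + v)).testBit i then M i else 0) =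
      if 9 * k + v = i then M i else 0 := by
    intro i _
    rw [Nat.testBit_two_pow]
    simp
  rw [Finset.sum_congr rfl h2, Finset.sum_ite_eq]
  rw [if_pos]
  rw [Finset.mem_range]
  omega

/-- a Boolean as an element of the field with two elements -/
def bz (s : Bool) : ZMod 2 := if s then 1 else 0

theorem bz_xor (s t : Bool) : bz (xor s t) = bz s + bz t := by
  cases s <;> cases t <;> rfl

theorem vkA_sound (K : ℕ) (m : Fin 9 → Fin 9 → Fin 9 → ZMod 2)
    (hm : ∀ k l, k < 36 → l < 36 → K.testBit k = true → K.testBit l = true → ind k l = true →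
      bz (bet k l) = m (vt (ea k)) (vt (eb k)) (vt (ea l)) + m (vt (ea k)) (vt (eb k)) (vt (eb l)) +
        m (vt (ea l)) (vt (eb l)) (vt (ea k)) + m (vt (ea l)) (vt (eb l)) (vt (eb k))) :
    ∀ f Q acc s, vkA K f Q acc s = true →
      val (fun i => m (vt (ea (i / 9))) (vt (eb (i / 9))) (vt (i % 9))) acc + bz s = 1 := by
  intro f
  have hend : ∀ acc s, (Nat.beq acc 0 && s) = true →
      val (fun i => m (vt (ea (i / 9))) (vt (eb (i / 9))) (vt (i % 9))) acc + bz s = 1 := by
    intro acc s h
    rw [Bool.and_eq_true] at h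
    have h0 : acc = 0 := Nat.eq_of_beq_eq_true h.1
    rw [h0, h.2]
    simp [val, bz]
  induction f with
  | zero => intro Q acc s h; exact hend acc s h
  | succ f ih =>
    intro Q acc s h
    unfold vkA at h
    cases hQ : Nat.beq Q 0 with
    | true => rw [hQ] at h; exact hend acc s h
    | false =>
      rw [hQ] at h
      simp only [cond_false] at h
      generalize Nat.land Q 63 = k at h
      generalize Nat.land (Nat.shiftRight Q 6) 63 = l at h
      simp only [Bool.and_eq_true] at h
      obtain ⟨h1, h2, h3, h4, h5, h6⟩ := h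
      have hk : k < 36 := by simpa [Nat.blt_eq] using h1
      have hl : l < 36 := by simpa [Nat.blt_eq] using h2
      rw [tb_eq] at h3 h4
      have h7 := ih _ _ _ h6
      rw [val_xor, val_xor, val_xor, val_xor, bz_xor, hm k l hk hl h3 h4 h5] at h7
      have e1 := ea_lt hk
      have e2 := eb_lt hk
      have e3 := ea_lt hl
      have e4 := eb_lt hl
      rw [val_bt _ hk (by omega), val_bt _ hk (by omega), val_bt _ hl (by omega),
        val_bt _ hl (by omega)] at h7
      have d1 : (9 * k + ea l) / 9 = k := by omega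
      have d2 : (9 * k + eb l) / 9 = k := by omega
      have d3 : (9 * l + ea k) / 9 = l := by omega
      have d4 : (9 * l + eb k) / 9 = l := by omega
      have c1 : (9 * k + ea l) % 9 = ea l := by omega
      have c2 : (9 * k + eb l) % 9 = eb l := by omega
      have c3 : (9 * l + ea k) % 9 = ea k := by omega
      have c4 : (9 * l + eb k) % 9 = eb k := by omega
      simp only [d1, d2, d3, d4, c1, c2, c3, c4] at h7
      have two : (2 : ZMod 2) = 0 := rfl
      linear_combination h7 - (m (vt (ea k)) (vt (eb k)) (vt (ea l)) + m (vt (ea k)) (vt (eb k)) (vt (eb l)) +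
        m (vt (ea l)) (vt (eb l)) (vt (ea k)) + m (vt (ea l)) (vt (eb l)) (vt (eb k))) * two

theorem vt_lt {x y : ℕ} (h : x < y) (hy : y < 9) : vt x < vt y := by
  rw [Fin.lt_def, vt_val (by omega), vt_val hy]; exact h

theorem vt_lt_iff {x y : ℕ} (hx : x < 9) (hy : y < 9) : vt x < vt y ↔ x < y := by
  rw [Fin.lt_def, vt_val hx, vt_val hy]

theorem vt_ne {x y : ℕ} (hx : x < 9) (hy : y < 9) (h : x ≠ y) : vt x ≠ vt y := by
  intro e
  apply h
  have := congrArg Fin.val e
  rwa [vt_val hx, vt_val hy] at this

theorem baseA_sound {s Q : ℕ} (h : baseA s Q = true) : Bad (fR s) (fB s) := by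
  unfold baseA at h
  rw [Bool.and_eq_true] at h
  intro C hC hr _ hT _
  obtain ⟨m, hm⟩ := hT.labels
  have key := vkA_sound (fR s) m ?_ 400 Q 0 false h.2
  · simp [val, bz] at key
  · intro k l hk hl h1 h2 h3
    have e1 := ea_lt hk
    have e2 := eb_lt hk
    have e3 := ea_lt hl
    have e4 := eb_lt hl
    simp only [ind, Bool.and_eq_true, Bool.not_eq_true'] at h3
    obtain ⟨n1, n2, n3, n4⟩ := h3
    have n1 : ea k ≠ ea l := Nat.ne_of_beq_eq_false n1
    have n2 : ea k ≠ eb l := Nat.ne_of_beq_eq_false n2
    have n3 : eb k ≠ ea l := Nat.ne_of_beq_eq_false n3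
    have n4 : eb k ≠ eb l := Nat.ne_of_beq_eq_false n4
    have ck : C (vt (ea k)) (vt (eb k)) = true := hr k hk h1
    have cl : C (vt (ea l)) (vt (eb l)) = true := hr l hl h2
    rw [← hm (vt (ea k)) (vt (eb k)) (vt (ea l)) (vt (eb l)) (vt_lt e1 e2) (vt_lt e3 e4)
      ⟨vt_ne (by omega) e2 (by omega), ck⟩ ⟨vt_ne (by omega) e4 (by omega), cl⟩
      (vt_ne (by omega) (by omega) n1) (vt_ne (by omega) (by omega) n2)
      (vt_ne (by omega) (by omega) n3) (vt_ne (by omega) (by omega) n4)]
    have hb1 : ∀ x y : ℕ, Nat.blt x y = decide (x < y) := by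
      intro x y
      by_cases h : x < y
      · simp [h, Nat.blt_eq]
      · have : Nat.blt x y = false := by
          cases hh : Nat.blt x y with
          | false => rfl
          | true => exact absurd (by simpa [Nat.blt_eq] using hh) h
        simp [h, this]
    unfold bet beta
    rw [bz_xor, hb1, hb1, hb1, hb1]
    have v1 : vt (ea k) < vt (ea l) ↔ ea k < ea l := vt_lt_iff (by omega) (by omega)
    have v2 : vt (ea l) < vt (eb k) ↔ ea l < eb k := vt_lt_iff (by omega) (by omega)
    have v3 : vt (ea k) < vt (eb l) ↔ ea k < eb l := vt_lt_iff (by omega) (by omega)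
    have v4 : vt (eb l) < vt (eb k) ↔ eb l < eb k := vt_lt_iff (by omega) (by omega)
    simp only [v1, v2, v3, v4, bz, Bool.and_eq_true, decide_eq_true_eq]

/-- the whole table -/
def okA (T B : Tr) (n : ℕ) : Bool :=
  frc (T.get n) fun s => bif Nat.beq (fE s) 63 then baseA s (B.get (fI s)) else stepA T n s

theorem okA_sound {T B : Tr} {N : ℕ} (h : ∀ n, n < N → okA T B n = true) :
    ∀ n, n < N → Bad (fR (T.get n)) (fB (T.get n)) := by
  intro n
  induction n using Nat.strong_induction_on with
  | _ n ih =>
    intro hn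
    have h1 := h n hn
    unfold okA at h1
    rw [frc_eq] at h1
    cases h2 : Nat.beq (fE (T.get n)) 63 with
    | true => rw [h2] at h1; exact baseA_sound h1
    | false =>
      rw [h2] at h1
      exact stepA_sound h1 (fun i hi => ih i hi (by omega))

/-- all steps with numbers in `[a, a + c)` -/
def rngA (T B : Tr) (a : ℕ) : ℕ → Bool
  | 0 => true
  | c + 1 => bif okA T B (a + c) then rngA T B a c else false

theorem rngA_sound {T B : Tr} {a : ℕ} : ∀ {c : ℕ}, rngA T B a c = true →
    ∀ n, a ≤ n → n < a + c → okA T B n = true := by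
  intro c
  induction c with
  | zero => intro _ n h1 h2; omega
  | succ c ih =>
    intro h n h1 h2
    simp only [rngA] at h
    cases h3 : okA T B (a + c) with
    | false => rw [h3] at h; simp at h
    | true =>
      rw [h3] at h; simp only [cond_true] at h
      by_cases hn : n = a + c
      · rw [hn]; exact h3
      · exact ih h n h1 (by omega)

end Pool.Agent.N400.K9
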