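import Mathlib
import Pool.Agent.Helper770.VanKampen

/-! Crossing-free drawings of relations on nine vertices, and the van Kampen labels. -/

set_option autoImplicit false

namespace Pool.Agent.N400.K9

open Pool.Agent.Helper770.VanKampen

/-- the relation `R` on nine points has a drawing in the plane without crossings -/
def TP (R : Fin 9 → Fin 9 → Prop) : Prop :=
  ∃ (p : Fin 9 → ℂ) (γ : Fin 9 → Fin 9 → ℝ → ℂ), Function.Injective p ∧
    (∀ a b, R a b → Continuous (γ a b) ∧ γ a b 0 = p a ∧ γ a b 1 = p b ∧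
      ∀ c, c ≠ a → c ≠ b → ∀ t, γ a b t ≠ p c) ∧
    (∀ a b c d, R a b → R c d → a ≠ c → a ≠ d → b ≠ c → b ≠ d → ∀ s t, γ a b s ≠ γ c d t)

theorem TP.comp {R : Fin 9 → Fin 9 → Prop} (h : TP R) (π : Fin 9 → Fin 9)
    (hπ : Function.Injective π) : TP (fun a b => R (π a) (π b)) := by
  obtain ⟨p, γ, hp, h1, h2⟩ := h
  refine ⟨p ∘ π, fun a b => γ (π a) (π b), hp.comp hπ, ?_, ?_⟩
  · intro a b hab
    obtain ⟨hc, h0, h1', hv⟩ := h1 _ _ hab
    exact ⟨hc, h0, h1', fun c hca hcb t => hv (π c) (fun h => hca (hπ h)) (fun h => hcb (hπ h)) t⟩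
  · intro a b c d hab hcd e1 e2 e3 e4 s t
    exact h2 _ _ _ _ hab hcd (fun h => e1 (hπ h)) (fun h => e2 (hπ h)) (fun h => e3 (hπ h))
      (fun h => e4 (hπ h)) s t

theorem TP.mono {R S : Fin 9 → Fin 9 → Prop} (h : TP R) (hs : ∀ a b, S a b → R a b) : TP S := by
  obtain ⟨p, γ, hp, h1, h2⟩ := h
  exact ⟨p, γ, hp, fun a b hab => h1 a b (hs a b hab), fun a b c d hab hcd =>
    h2 a b c d (hs _ _ hab) (hs _ _ hcd)⟩

theorem TP.labels {R : Fin 9 → Fin 9 → Prop} (h : TP R) :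
    ∃ m : Fin 9 → Fin 9 → Fin 9 → ZMod 2, ∀ a b c d, a < b → c < d → R a b → R c d →
      a ≠ c → a ≠ d → b ≠ c → b ≠ d →
      beta a b c d = m a b c + m a b d + m c d a + m c d b := by
  obtain ⟨p, γ, hp, h1, h2⟩ := h
  obtain ⟨m, hm⟩ := exists_labels p hp R γ (fun a b _ hab => (h1 a b hab).1)
    (fun a b _ hab => (h1 a b hab).2.1) (fun a b _ hab => (h1 a b hab).2.2.1)
    (fun a b c _ hab hca hcb => (h1 a b hab).2.2.2 c hca hcb)
  exact ⟨m, fun a b c d hab hcd h3 h4 e1 e2 e3 e4 =>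
    hm a b c d hab hcd h3 h4 e1 e2 e3 e4 (h2 a b c d h3 h4 e1 e2 e3 e4)⟩

end Pool.Agent.N400.K9
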